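import Pool.Agent.H.MP_0cad2f_co.helper29.Cover
import Pool.Agent.H.MP_0cad2f_co.helper94.Block

/-! Almost surely the perturbed polyhedron has a vertex. -/

set_option autoImplicit false

namespace Pool.Agent.H.MP_0cad2f_co.helper29

open MeasureTheory
open Pool.Agent.H.MP_0cad2f_co.helper47

variable {n d : ℕ}

/-- (10a) -/
theorem ae_exists_good (c : Fin n → Fin d → ℝ) {σ : ℝ} (hσ : 0 < σ) (hd : 1 ≤ d)
    (hn : d ≤ n) : ∀ᵐ a ∂(noise c σ), ∃ B, Good a B := by
  filter_upwards [Pool.Agent.H.MP_0cad2f_co.helper94.ae_det_ne_zero c hσ (Fin.castLEOrderEmb hn)]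
    with a ha
  exact exists_good_of_det hd ha

end Pool.Agent.H.MP_0cad2f_co.helper29
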