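import Pool.Agent.H.MP_0cad2f_co.helper29.Point
import Pool.Agent.H.MP_0cad2f_co.helper47.Flux

/-! The average number of facets met. -/

set_option autoImplicit false

namespace Pool.Agent.H.MP_0cad2f_co.helper29

open MeasureTheory Matrix Finset
open scoped NNReal ENNReal
open Pool.Agent.H.MP_0cad2f_co.helper47

variable {n d : ℕ}

/-- (7d2) The expected number of facets met, for fixed constraints. -/
theorem lintegral_hits_le {a : Fin n → Fin d → ℝ} {G : Finset (Fin n)} {I : Idx n d}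
    {A L M R : ℝ} (hA : 0 < A) (ha : ∀ i, n2 (a i) ≤ A) :
    ∫⁻ X in {X : Fin d → ℝ | ‖X‖ ≤ R}, (hits a (cI a I) M (X + L • aG a G) : ℝ≥0∞) ≤
      fluxSum a G I A L M R := by
  classical
  obtain ⟨p, hp⟩ : ∃ p : Fin d → ℝ, p = L • aG a G := ⟨_, rfl⟩
  obtain ⟨c, hc⟩ : ∃ c : Fin d → ℝ, c = cI a I := ⟨_, rfl⟩
  have hCm : MeasurableSet {X : Fin d → ℝ | ‖X‖ ≤ R} := by
    rw [cube_eq]
    exact Metric.isClosed_closedBall.measurableSet
  have hHm : ∀ B k, MeasurableSet {X : Fin d → ℝ | Hit a B k c M (X + p)} := fun B k =>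
    ((isClosed_hit a B k c M).preimage (continuous_add_const p)).measurableSet
  have hfun : ∀ (B : Idx n d) (k : Fin d), Measurable fun X : Fin d → ℝ =>
      (if Good a B ∧ Hit a B k c M (X + p) then (1 : ℝ≥0∞) else 0) := by
    intro B k
    by_cases h : Good a B
    · refine Measurable.ite ?_ measurable_const measurable_const
      have h1 : {X : Fin d → ℝ | Good a B ∧ Hit a B k c M (X + p)} =
          {X : Fin d → ℝ | Hit a B k c M (X + p)} := by
        ext X
        exact ⟨fun h2 => h2.2, fun h2 => ⟨h, h2⟩⟩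
      rw [h1]
      exact hHm B k
    · have h1 : (fun X : Fin d → ℝ =>
          (if Good a B ∧ Hit a B k c M (X + p) then (1 : ℝ≥0∞) else 0)) = fun _ => 0 := by
        ext X
        rw [if_neg fun h2 => h h2.1]
      rw [h1]
      exact measurable_const
  have h1 : ∫⁻ X in {X : Fin d → ℝ | ‖X‖ ≤ R}, (hits a c M (X + p) : ℝ≥0∞) =
      ∑ B : Idx n d, ∑ k : Fin d, ∫⁻ X in {X : Fin d → ℝ | ‖X‖ ≤ R},
        (if Good a B ∧ Hit a B k c M (X + p) then (1 : ℝ≥0∞) else 0) := by
    unfold hits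
    push_cast
    rw [lintegral_finsetSum _ fun B _ => Finset.measurable_sum _ fun k _ => hfun B k]
    refine Finset.sum_congr rfl fun B _ => ?_
    rw [lintegral_finsetSum _ fun k _ => hfun B k]
  rw [← hp, ← hc, h1]
  unfold fluxSum
  refine Finset.sum_le_sum fun B _ => ?_
  by_cases h : Good a B
  · rw [if_pos h, Finset.sum_mul, ← hc]
    refine Finset.sum_le_sum fun k _ => ?_
    have h2 : ∫⁻ X in {X : Fin d → ℝ | ‖X‖ ≤ R},
        (if Good a B ∧ Hit a B k c M (X + p) then (1 : ℝ≥0∞) else 0) =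
        volume {X : Fin d → ℝ | ‖X‖ ≤ R ∧ Hit a B k c M (X + p)} := by
      have h3 : (fun X : Fin d → ℝ =>
          (if Good a B ∧ Hit a B k c M (X + p) then (1 : ℝ≥0∞) else 0)) =
          {X : Fin d → ℝ | Hit a B k c M (X + p)}.indicator fun _ => 1 := by
        ext X
        by_cases h4 : Hit a B k c M (X + p)
        · rw [if_pos ⟨h, h4⟩, Set.indicator_of_mem (show X ∈ {X | Hit a B k c M (X + p)} from h4)]
        · rw [if_neg fun h5 => h4 h5.2,
            Set.indicator_of_notMem (show X ∉ {X | Hit a B k c M (X + p)} from h4)]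
      rw [h3, lintegral_indicator (hHm B k), lintegral_const, one_mul,
        Measure.restrict_apply_univ, Measure.restrict_apply (hHm B k)]
      congr 1
      ext X
      exact ⟨fun h5 => ⟨h5.2, h5.1⟩, fun h5 => ⟨h5.2, h5.1⟩⟩
    rw [h2]
    have h3 := flux (p := p) (M := M) (R := R) h.1 k hA ((norm_le_n2 _).trans (ha (B k))) c
    refine h3.trans ?_
    have h4 : ∀ μ : ℝ, volume {X : Fin d → ℝ | ‖X‖ ≤ R + 1 ∧ InCone a B (X + p + μ • c)} =
        coneVol a B (obj a G I L μ) (R + 1) := by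
      intro μ
      unfold coneVol obj
      simp only [← hp, ← hc, add_assoc]
    rw [lintegral_congr fun μ => h4 μ]
  · rw [if_neg h]
    refine le_of_eq (Finset.sum_eq_zero fun k _ => ?_)
    have h2 : (fun X : Fin d → ℝ =>
        (if Good a B ∧ Hit a B k c M (X + p) then (1 : ℝ≥0∞) else 0)) = fun _ => 0 := by
      ext X
      rw [if_neg fun h3 => h h3.1]
    rw [h2, lintegral_const, zero_mul]

open Classical in
/-- (7f) The pointwise estimate. -/
theorem card_le (c : Fin n → Fin d → ℝ) (G : Finset (Fin n)) {a : Fin n → Fin d → ℝ}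
    (hs : Simple a) {A Rg ρ₁ T L R M D : ℝ} (hd : 1 ≤ d)
    (hA : ∀ i, n2 (c i) + Rg ≤ A) (hA0 : 0 < A) (hT : 0 < T) (hR : 0 < R)
    (hL : T * (d * R + 1) ≤ L) (hM0 : 0 < M)
    (hM : T * (d * R + L * G.card * A) ≤ M) (hD : 0 < D) :
    (((Set.univ : Set (Vert a)).encard : ℕ∞) : ℝ≥0∞) ≤ ballCount a D +
      ∑ I : Idx n d, ((if Good a I ∧ ¬ Reg c a G I Rg ρ₁ T then 1 else 0) +
        (if Reg c a G I Rg ρ₁ T then
          fluxSum a G I A L M R / (ENNReal.ofReal D * cubeVol d R) else 0)) :=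
  card_le_of c G hs hd hA hT hR hL hM0 hM hD fun ha _ => lintegral_hits_le hA0 ha

end Pool.Agent.H.MP_0cad2f_co.helper29
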