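import Pool.Agent.H.MP_0cad2f_co.helper47.Defs

/-!
Normal cones of a polytope `{x | ∀ i, ⟨a i, x⟩ ≤ 1}`: the cones of the feasible bases cover the space,
and a vector in general position lies in only one of them.
-/

set_option autoImplicit false

namespace Pool.Agent.H.MP_0cad2f_co.helper29

open MeasureTheory Matrix Finset
open Pool.Agent.H.MP_0cad2f_co.helper47

variable {n d : ℕ}

theorem Good.vert {a : Fin n → Fin d → ℝ} {B : Idx n d} (h : Good a B) :
    (∀ i, ∑ j, a i j * vtx a B j ≤ 1) ∧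
      Submodule.span ℝ (a '' {i | ∑ j, a i j * vtx a B j = 1}) = ⊤ := by
  refine ⟨fun i => h.2 i, ?_⟩
  have h1 : LinearIndependent ℝ (fun k => a (B k)) := det_ne_zero_iff.1 h.1
  have h2 := h1.span_eq_top_of_card_eq_finrank' (by simp)
  rw [eq_top_iff, ← h2]
  refine Submodule.span_mono ?_
  rintro _ ⟨k, rfl⟩
  exact ⟨B k, dot_vtx h.1 k, rfl⟩

/-- The vertex of a feasible basis. -/
noncomputable def toVert (a : Fin n → Fin d → ℝ) (B : {B : Idx n d // Good a B}) : Vert a :=
  ⟨vtx a B.1, Good.vert B.2⟩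

/-- A set of `d` constraints with independent normals is a basis. -/
theorem exists_idx {a : Fin n → Fin d → ℝ} (T : Finset (Fin n)) (hT : T.card = d)
    (hs : Submodule.span ℝ (a '' (T : Set (Fin n))) = ⊤) :
    ∃ B : Idx n d, (∀ i, i ∈ Set.range B ↔ i ∈ T) ∧ (mat a B).det ≠ 0 := by
  refine ⟨T.orderEmbOfFin hT, fun i => ?_, ?_⟩
  · rw [Finset.range_orderEmbOfFin]
    exact Iff.rfl
  · rw [det_ne_zero_iff]
    refine linearIndependent_of_top_le_span_of_card_eq_finrank ?_ (by simp)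
    rw [← hs]
    refine Submodule.span_mono ?_
    rintro _ ⟨i, hi, rfl⟩
    have h1 : i ∈ Set.range (T.orderEmbOfFin hT) := by
      rw [Finset.range_orderEmbOfFin]
      exact hi
    obtain ⟨k, rfl⟩ := h1
    exact ⟨k, rfl⟩

/-- (1b) -/
theorem toVert_surjective (a : Fin n → Fin d → ℝ) : Function.Surjective (toVert a) := by
  classical
  rintro ⟨x, hx, hsp⟩
  let S : Set (Fin n) := {i | ∑ j, a i j * x j = 1}
  obtain ⟨κ, f, hf, hsf, hli⟩ := exists_linearIndependent' ℝ (fun i : S => a i)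
  have hsp' : Submodule.span ℝ (Set.range ((fun i : S => a i) ∘ f)) = ⊤ := by
    rw [hsf, ← hsp]
    congr 1
    ext y
    constructor
    · rintro ⟨i, rfl⟩
      exact ⟨i, i.2, rfl⟩
    · rintro ⟨i, hi, rfl⟩
      exact ⟨⟨i, hi⟩, rfl⟩
  have : Finite κ := Finite.of_injective f hf
  let _ : Fintype κ := Fintype.ofFinite κ
  have hcard : Fintype.card κ = d := by
    have h1 := finrank_span_eq_card hli
    rw [hsp', finrank_top] at h1
    rw [← h1]
    simp
  let T : Finset (Fin n) := Finset.univ.image fun k : κ => (f k : Fin n)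
  have hTc : T.card = d := by
    rw [Finset.card_image_of_injective, Finset.card_univ, hcard]
    exact Subtype.val_injective.comp hf
  have hTs : Submodule.span ℝ (a '' (T : Set (Fin n))) = ⊤ := by
    rw [← hsp']
    congr 1
    ext y
    constructor
    · rintro ⟨i, hi, rfl⟩
      obtain ⟨k, -, rfl⟩ := Finset.mem_image.1 (Finset.mem_coe.1 hi)
      exact ⟨k, rfl⟩
    · rintro ⟨k, rfl⟩
      exact ⟨f k, Finset.mem_coe.2 (Finset.mem_image.2 ⟨k, Finset.mem_univ _, rfl⟩), rfl⟩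
  obtain ⟨B, hB, hdet⟩ := exists_idx T hTc hTs
  have hxv : x = vtx a B := by
    refine eq_vtx hdet fun k => ?_
    obtain ⟨j, -, hj⟩ := Finset.mem_image.1 ((hB (B k)).1 ⟨k, rfl⟩)
    rw [← hj]
    exact (f j).2
  refine ⟨⟨B, hdet, fun i => ?_⟩, Subtype.ext hxv.symm⟩
  rw [← hxv]
  exact hx i

theorem vtx_inj {a : Fin n → Fin d → ℝ} (hs : Simple a) {B B' : Idx n d} (h : Good a B)
    (h' : Good a B') (hv : vtx a B = vtx a B') : B = B' := by
  classical
  have h1 : Set.range B' ⊆ Set.range B := by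
    rintro _ ⟨k, rfl⟩
    by_contra hcon
    refine hs B h (B' k) hcon ?_
    rw [hv]
    exact dot_vtx h'.1 k
  have h2 : Set.range B ⊆ Set.range B' := by
    rintro _ ⟨k, rfl⟩
    by_contra hcon
    refine hs B' h' (B k) hcon ?_
    rw [← hv]
    exact dot_vtx h.1 k
  exact OrderEmbedding.range_inj.1 (h2.antisymm h1)

/-- (1c) -/
theorem toVert_injective {a : Fin n → Fin d → ℝ} (hs : Simple a) :
    Function.Injective (toVert a) := by
  rintro ⟨B, h⟩ ⟨B', h'⟩ hv
  exact Subtype.ext (vtx_inj hs h h' (congrArg Subtype.val hv))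

/-- The optimality condition of linear programming: at a point `x` of the polytope where `w` is
maximal, `w` is a combination with positive coefficients of independent tight constraints. -/
theorem exists_dual {a : Fin n → Fin d → ℝ} {w x : Fin d → ℝ} (hw : w ≠ 0)
    (hx : ∀ i, a i ⬝ᵥ x ≤ 1)
    (hmax : ∀ y : Fin d → ℝ, (∀ i, a i ⬝ᵥ y ≤ 1) → w ⬝ᵥ y ≤ w ⬝ᵥ x) :
    ∃ s : ℝ, 0 < s ∧ s • w ∈ convexHull ℝ (a '' {i | a i ⬝ᵥ x = 1}) := by
  classical
  let T : Set (Fin n) := {i | a i ⬝ᵥ x = 1}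
  -- a direction which is feasible and increases `w` does not exist
  have hno : ∀ y : Fin d → ℝ, (∀ i ∈ T, a i ⬝ᵥ y < 0) → ¬ 0 < w ⬝ᵥ y := by
    intro y hy hwy
    have h1 : ∀ i : Fin n, ∃ ε : ℝ, 0 < ε ∧ ∀ δ : ℝ, 0 < δ → δ ≤ ε → a i ⬝ᵥ (x + δ • y) ≤ 1 := by
      intro i
      by_cases hi : i ∈ T
      · refine ⟨1, one_pos, fun δ hδ _ => ?_⟩
        have h2 : a i ⬝ᵥ x = 1 := hi
        rw [dotProduct_add, dotProduct_smul, h2, smul_eq_mul]
        nlinarith [hy i hi]
      · have h2 : a i ⬝ᵥ x < 1 := lt_of_le_of_ne (hx i) hi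
        refine ⟨(1 - a i ⬝ᵥ x) / (|a i ⬝ᵥ y| + 1), by
          have := abs_nonneg (a i ⬝ᵥ y)
          exact div_pos (by linarith) (by linarith), fun δ hδ hδ' => ?_⟩
        rw [dotProduct_add, dotProduct_smul, smul_eq_mul]
        have h3 : (0 : ℝ) < |a i ⬝ᵥ y| + 1 := by positivity
        rw [le_div_iff₀ h3] at hδ'
        nlinarith [le_abs_self (a i ⬝ᵥ y), abs_nonneg (a i ⬝ᵥ y)]
    choose ε hε hfeas using h1
    obtain ⟨δ, hδ, hδε⟩ : ∃ δ : ℝ, 0 < δ ∧ ∀ i, δ ≤ ε i := by
      rcases isEmpty_or_nonempty (Fin n) with he | he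
      · exact ⟨1, one_pos, fun i => (he.false i).elim⟩
      · obtain ⟨i₀, hi₀⟩ := Finite.exists_min ε
        exact ⟨ε i₀, hε i₀, hi₀⟩
    have h2 := hmax (x + δ • y) fun i => hfeas i δ hδ (hδε i)
    rw [dotProduct_add, dotProduct_smul, smul_eq_mul] at h2
    nlinarith
  have hww : 0 < w ⬝ᵥ w := by
    rcases lt_or_eq_of_le (dot_self_nonneg w) with h | h
    · exact h
    · exact absurd (dotProduct_self_eq_zero.1 h.symm) hw
  -- the ray meets the convex hull
  obtain ⟨s, hs0, hs⟩ : ∃ s : ℝ, 0 ≤ s ∧ s • w ∈ convexHull ℝ (a '' T) := by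
    by_contra hcon
    push Not at hcon
    have hK : IsCompact (convexHull ℝ (a '' T)) := (T.toFinite.image a).isCompact_convexHull ℝ
    have hKc : Convex ℝ (convexHull ℝ (a '' T)) := convex_convexHull ℝ _
    let ray : Set (Fin d → ℝ) := {y | ∃ s : ℝ, 0 ≤ s ∧ s • w = y}
    have hrc : Convex ℝ ray := by
      rintro _ ⟨s, hs, rfl⟩ _ ⟨t, ht, rfl⟩ p q hp hq hpq
      refine ⟨p * s + q * t, by positivity, ?_⟩
      rw [add_smul, mul_smul, mul_smul]
    have hrcl : IsClosed ray := by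
      have h1 : ray = (fun s : ℝ => s • w) '' Set.Ici 0 := by
        ext y
        constructor
        · rintro ⟨s, hs, rfl⟩
          exact ⟨s, hs, rfl⟩
        · rintro ⟨s, hs, rfl⟩
          exact ⟨s, hs, rfl⟩
      rw [h1]
      exact (isClosedEmbedding_smul_left (𝕜 := ℝ) hw).isClosedMap _ isClosed_Ici
    have hdisj : Disjoint (convexHull ℝ (a '' T)) ray := by
      rw [Set.disjoint_left]
      rintro _ hy ⟨s, hs, rfl⟩
      exact hcon s hs hy
    obtain ⟨f, u, v, hu, huv, hv⟩ := geometric_hahn_banach_compact_closed hKc hK hrc hrcl hdisj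
    have hv0 : v < 0 := by
      have := hv 0 ⟨0, le_rfl, zero_smul _ _⟩
      rwa [map_zero] at this
    -- the functional as a vector
    let y : Fin d → ℝ := fun j => f (Pi.single j 1)
    have hfy : ∀ z : Fin d → ℝ, f z = z ⬝ᵥ y := by
      intro z
      have h1 : z = ∑ j, z j • (Pi.single j (1 : ℝ) : Fin d → ℝ) := by
        ext k
        rw [Finset.sum_apply]
        simp [Pi.single_apply]
      conv_lhs => rw [h1]
      rw [map_sum]
      refine Finset.sum_congr rfl fun j _ => ?_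
      rw [map_smul, smul_eq_mul]
    have hT : ∀ i ∈ T, a i ⬝ᵥ y < 0 := by
      intro i hi
      rw [← hfy]
      have := hu (a i) (subset_convexHull ℝ _ ⟨i, hi, rfl⟩)
      linarith
    have hwy : 0 ≤ w ⬝ᵥ y := by
      by_contra hneg
      push Not at hneg
      have h1 : v < f ((v / (w ⬝ᵥ y)) • w) :=
        hv _ ⟨v / (w ⬝ᵥ y), (div_pos_of_neg_of_neg hv0 hneg).le, rfl⟩
      rw [map_smul, hfy, smul_eq_mul, div_mul_cancel₀ _ hneg.ne] at h1
      exact lt_irrefl _ h1
    -- perturb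
    have h1 : ∀ i : Fin n, ∃ ε : ℝ, 0 < ε ∧ (i ∈ T → ∀ δ : ℝ, 0 < δ → δ ≤ ε →
        a i ⬝ᵥ (y + δ • w) < 0) := by
      intro i
      by_cases hi : i ∈ T
      · have h2 := hT i hi
        refine ⟨(-(a i ⬝ᵥ y)) / (2 * (|a i ⬝ᵥ w| + 1)), by
          have := abs_nonneg (a i ⬝ᵥ w)
          exact div_pos (by linarith) (by linarith), fun _ δ hδ hδ' => ?_⟩
        rw [dotProduct_add, dotProduct_smul, smul_eq_mul]
        have h3 : (0 : ℝ) < 2 * (|a i ⬝ᵥ w| + 1) := by positivity
        rw [le_div_iff₀ h3] at hδ'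
        nlinarith [le_abs_self (a i ⬝ᵥ w), abs_nonneg (a i ⬝ᵥ w)]
      · exact ⟨1, one_pos, fun h => absurd h hi⟩
    choose ε hε hfeas using h1
    obtain ⟨δ, hδ, hδε⟩ : ∃ δ : ℝ, 0 < δ ∧ ∀ i, δ ≤ ε i := by
      rcases isEmpty_or_nonempty (Fin n) with he | he
      · exact ⟨1, one_pos, fun i => (he.false i).elim⟩
      · obtain ⟨i₀, hi₀⟩ := Finite.exists_min ε
        exact ⟨ε i₀, hε i₀, hi₀⟩
    refine hno (y + δ • w) (fun i hi => hfeas i hi δ hδ (hδε i)) ?_
    rw [dotProduct_add, dotProduct_smul, smul_eq_mul]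
    have := mul_pos hδ hww
    linarith
  refine ⟨s, lt_of_le_of_ne hs0 ?_, hs⟩
  rintro rfl
  -- `0` is not in the convex hull, which lies in the hyperplane `x = 1`
  rw [zero_smul] at hs
  have h1 : convexHull ℝ (a '' T) ⊆ {z | z ⬝ᵥ x = 1} := by
    refine convexHull_min ?_ ?_
    · rintro _ ⟨i, hi, rfl⟩
      exact hi
    · intro y hy z hz p q _ _ hpq
      show (p • y + q • z) ⬝ᵥ x = 1
      have hy' : y ⬝ᵥ x = 1 := hy
      have hz' : z ⬝ᵥ x = 1 := hz
      rw [add_dotProduct, smul_dotProduct, smul_dotProduct, hy', hz', smul_eq_mul, smul_eq_mul,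
        mul_one, mul_one, hpq]
  have h2 : (0 : Fin d → ℝ) ⬝ᵥ x = 1 := h1 hs
  rw [zero_dotProduct] at h2
  exact zero_ne_one h2

/-- (1a) A vector `w` in general position lies in the normal cone of some feasible basis, if the
linear program with objective `w` is bounded, with some room. -/
theorem exists_good_cone {a : Fin n → Fin d → ℝ} {c w : Fin d → ℝ} {K : ℝ} (hd : 1 ≤ d)
    (hb : ∀ x : Fin d → ℝ, (∀ i, a i ⬝ᵥ x ≤ 1) → w ⬝ᵥ x ≤ K - n2 x)
    (hw : Generic a c w) : ∃ B, Good a B ∧ InCone a B w := by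
  classical
  have hw0 : w ≠ 0 := by
    rintro rfl
    exact (hw ∅).1 (by rw [Finset.card_empty]; omega) (Submodule.zero_mem _)
  -- a maximizer
  let P : Set (Fin d → ℝ) := {x | (∀ i, a i ⬝ᵥ x ≤ 1) ∧ 0 ≤ w ⬝ᵥ x}
  have hPc : IsClosed P := by
    have : P = (⋂ i, {x | a i ⬝ᵥ x ≤ 1}) ∩ {x | 0 ≤ w ⬝ᵥ x} := by
      ext x
      simp [P]
    rw [this]
    refine IsClosed.inter (isClosed_iInter fun i => isClosed_le ?_ continuous_const)
      (isClosed_le continuous_const ?_)
    · unfold dotProduct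
      fun_prop
    · unfold dotProduct
      fun_prop
  have hPb : Bornology.IsBounded P := by
    rw [isBounded_iff_forall_norm_le]
    exact ⟨K, fun x hx => (norm_le_n2 x).trans (by linarith [hb x hx.1, hx.2])⟩
  have hPk : IsCompact P := Metric.isCompact_of_isClosed_isBounded hPc hPb
  have hP0 : P.Nonempty := ⟨0, fun i => by rw [dotProduct_zero]; exact zero_le_one, by
    rw [dotProduct_zero]⟩
  obtain ⟨x, ⟨hx, hx0⟩, hmax'⟩ := hPk.exists_isMaxOn hP0 (f := fun x => w ⬝ᵥ x) (by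
    unfold dotProduct
    fun_prop)
  have hmax : ∀ y : Fin d → ℝ, (∀ i, a i ⬝ᵥ y ≤ 1) → w ⬝ᵥ y ≤ w ⬝ᵥ x := by
    intro y hy
    by_cases h0 : 0 ≤ w ⬝ᵥ y
    · exact hmax' (show y ∈ P from ⟨hy, h0⟩)
    · linarith
  obtain ⟨s, hs, hmem⟩ := exists_dual hw0 hx hmax
  obtain ⟨ι, _, z, wt, hz, hind, hpos, hsum, hcomb⟩ := eq_pos_convex_span_of_mem_convexHull hmem
  have hzx : ∀ i, ∃ j : Fin n, a j = z i ∧ a j ⬝ᵥ x = 1 := by
    intro i
    obtain ⟨j, hj, hji⟩ := hz ⟨i, rfl⟩
    exact ⟨j, hji, hj⟩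
  choose g hg hgx using hzx
  have hginj : Function.Injective g := by
    intro i j hij
    apply hind.injective
    rw [← hg, ← hg, hij]
  have hli : LinearIndependent ℝ z := by
    rw [linearIndependent_iff']
    intro t c hc
    rw [affineIndependent_iff] at hind
    refine hind t c ?_ hc
    have h1 : (∑ i ∈ t, c i • z i) ⬝ᵥ x = ∑ i ∈ t, c i := by
      rw [sum_dotProduct]
      refine Finset.sum_congr rfl fun i _ => ?_
      rw [smul_dotProduct, ← hg, hgx, smul_eq_mul, mul_one]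
    rw [← h1, hc, zero_dotProduct]
  let T : Finset (Fin n) := Finset.univ.image g
  have hTc : T.card = Fintype.card ι := by
    rw [Finset.card_image_of_injective _ hginj, Finset.card_univ]
  have hspan : Submodule.span ℝ (a '' (T : Set (Fin n))) = Submodule.span ℝ (Set.range z) := by
    congr 1
    ext y
    constructor
    · rintro ⟨i, hi, rfl⟩
      obtain ⟨k, -, rfl⟩ := Finset.mem_image.1 (Finset.mem_coe.1 hi)
      exact ⟨k, (hg k).symm⟩
    · rintro ⟨k, rfl⟩
      exact ⟨g k, Finset.mem_coe.2 (Finset.mem_image.2 ⟨k, Finset.mem_univ _, rfl⟩), hg k⟩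
  have hwspan : w ∈ Submodule.span ℝ (a '' (T : Set (Fin n))) := by
    rw [hspan]
    have h1 : s • w ∈ Submodule.span ℝ (Set.range z) := by
      rw [← hcomb]
      exact Submodule.sum_mem _ fun i _ => Submodule.smul_mem _ _ (Submodule.subset_span ⟨i, rfl⟩)
    exact ((Submodule.span ℝ (Set.range z)).smul_mem_iff hs.ne').1 h1
  have hcard : T.card = d := by
    apply le_antisymm
    · rw [hTc]
      have := hli.fintype_card_le_finrank
      simpa using this
    · by_contra hcon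
      push Not at hcon
      exact (hw T).1 hcon hwspan
  have htop : Submodule.span ℝ (a '' (T : Set (Fin n))) = ⊤ := by
    rw [hspan]
    apply hli.span_eq_top_of_card_eq_finrank'
    rw [← hTc, hcard]
    simp
  obtain ⟨B, hB, hdet⟩ := exists_idx T hcard htop
  have hBg : ∀ k, ∃ i, g i = B k := by
    intro k
    obtain ⟨i, -, hi⟩ := Finset.mem_image.1 ((hB (B k)).1 ⟨k, rfl⟩)
    exact ⟨i, hi⟩
  have hxv : x = vtx a B := by
    refine eq_vtx hdet fun k => ?_
    obtain ⟨i, hi⟩ := hBg k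
    rw [← hi]
    exact hgx i
  refine ⟨B, ⟨hdet, fun i => ?_⟩, fun k => ?_⟩
  · rw [← hxv]
    exact hx i
  · have h1 : nu a B k ⬝ᵥ (s • w) = ∑ i, wt i * (nu a B k ⬝ᵥ z i) := by
      rw [← hcomb, dotProduct_sum]
      refine Finset.sum_congr rfl fun i _ => ?_
      rw [dotProduct_smul, smul_eq_mul]
    have h2 : 0 ≤ nu a B k ⬝ᵥ (s • w) := by
      rw [h1]
      refine Finset.sum_nonneg fun i _ => mul_nonneg (hpos i).le ?_
      obtain ⟨l, hl⟩ := (hB (g i)).2 (Finset.mem_image.2 ⟨i, Finset.mem_univ _, rfl⟩)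
      rw [← hg, ← hl, dotProduct_comm, dot_nu hdet]
      split_ifs
      · exact zero_le_one
      · exact le_rfl
    rw [dotProduct_smul, smul_eq_mul] at h2
    exact nonneg_of_mul_nonneg_right h2 hs

/-- The coordinates of a vector in general position are positive. -/
theorem Generic.pos {a : Fin n → Fin d → ℝ} {c X : Fin d → ℝ} (hX : Generic a c X)
    {B : Idx n d} (hdet : (mat a B).det ≠ 0) (hc : InCone a B X) (k : Fin d) :
    0 < nu a B k ⬝ᵥ X := by
  classical
  refine lt_of_le_of_ne (hc k) fun h0 => ?_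
  have h1 := (hX ((Finset.univ.erase k).image B)).1 (by
    rw [Finset.card_image_of_injective _ B.injective, Finset.card_erase_of_mem (Finset.mem_univ _),
      Finset.card_univ, Fintype.card_fin]
    have := k.2
    omega)
  apply h1
  rw [← sum_nu_smul hdet X, ← Finset.sum_erase_add _ _ (Finset.mem_univ k), ← h0, zero_smul, add_zero]
  refine Submodule.sum_mem _ fun l hl => Submodule.smul_mem _ _ (Submodule.subset_span ?_)
  exact ⟨B l, Finset.mem_coe.2 (Finset.mem_image.2 ⟨l, hl, rfl⟩), rfl⟩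

/-- (1d) -/
theorem unique_cone {a : Fin n → Fin d → ℝ} (hs : Simple a) {c X : Fin d → ℝ}
    (hX : Generic a c X) {B B' : Idx n d} (h : Good a B) (h' : Good a B')
    (hc : InCone a B X) (hc' : InCone a B' X) : B = B' := by
  have key : ∀ {B B' : Idx n d}, Good a B → Good a B' → InCone a B X →
      X ⬝ᵥ vtx a B' ≤ X ⬝ᵥ vtx a B := by
    intro B B' h h' hc
    rw [← sum_coord a B X]
    conv_lhs => rw [← sum_nu_smul h.1 X]
    rw [sum_dotProduct]
    refine Finset.sum_le_sum fun k _ => ?_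
    rw [smul_dotProduct, smul_eq_mul]
    exact mul_le_of_le_one_right (hc k) (h'.2 _)
  have heq : X ⬝ᵥ vtx a B' = X ⬝ᵥ vtx a B := le_antisymm (key h h' hc) (key h' h hc')
  refine vtx_inj hs h h' (Eq.symm ?_)
  refine eq_vtx h.1 fun k => ?_
  have h1 : ∑ k, (nu a B k ⬝ᵥ X) * (1 - a (B k) ⬝ᵥ vtx a B') = 0 := by
    have e1 : X ⬝ᵥ vtx a B' = ∑ k, (nu a B k ⬝ᵥ X) * (a (B k) ⬝ᵥ vtx a B') := by
      conv_lhs => rw [← sum_nu_smul h.1 X]
      rw [sum_dotProduct]
      refine Finset.sum_congr rfl fun k _ => ?_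
      rw [smul_dotProduct, smul_eq_mul]
    have e2 := sum_coord a B X
    simp only [mul_sub, mul_one, Finset.sum_sub_distrib]
    rw [← e1, e2, heq, sub_self]
  have h2 := (Finset.sum_eq_zero_iff_of_nonneg fun k _ =>
    mul_nonneg (hc k) (sub_nonneg.2 (h'.2 (B k)))).1 h1 k (Finset.mem_univ k)
  rcases mul_eq_zero.1 h2 with h3 | h3
  · exact absurd h3 (Generic.pos hX h.1 hc k).ne'
  · linarith

theorem ae_generic_zero (a : Fin n → Fin d → ℝ) (c : Fin d → ℝ) :
    ∀ᵐ X ∂(volume : Measure (Fin d → ℝ)), Generic a c X := by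
  classical
  unfold Generic
  rw [ae_all_iff]
  intro s
  have hnull : ∀ (t : Finset (Fin d → ℝ)), t.card < d →
      ∀ᵐ X ∂(volume : Measure (Fin d → ℝ)), X ∉ Submodule.span ℝ (t : Set (Fin d → ℝ)) := by
    intro t ht
    have hne : Submodule.span ℝ (t : Set (Fin d → ℝ)) ≠ ⊤ := by
      intro h
      have h1 := finrank_span_finset_le_card (R := ℝ) t
      rw [Set.finrank, h, finrank_top] at h1
      simp at h1
      omega
    exact measure_eq_zero_iff_ae_notMem.1 (Measure.addHaar_submodule volume _ hne)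
  have h1 : s.card < d → ∀ᵐ X ∂(volume : Measure (Fin d → ℝ)),
      X ∉ Submodule.span ℝ (a '' (s : Set (Fin n))) := by
    intro hs
    have := hnull (s.image a) (Finset.card_image_le.trans_lt hs)
    rwa [Finset.coe_image] at this
  have h2 : s.card + 1 < d → ∀ᵐ X ∂(volume : Measure (Fin d → ℝ)),
      X ∉ Submodule.span ℝ (insert c (a '' (s : Set (Fin n)))) := by
    intro hs
    have := hnull (insert c (s.image a)) (by
      refine (Finset.card_insert_le _ _).trans_lt ?_
      have := Finset.card_image_le (s := s) (f := a)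
      omega)
    rwa [Finset.coe_insert, Finset.coe_image] at this
  refine Filter.Eventually.and ?_ ?_
  · by_cases h : s.card < d
    · filter_upwards [h1 h] with X hX _ using hX
    · exact Filter.Eventually.of_forall fun X h' => absurd h' h
  · by_cases h : s.card + 1 < d
    · filter_upwards [h2 h] with X hX _ using hX
    · exact Filter.Eventually.of_forall fun X h' => absurd h' h

/-- (1e) -/
theorem ae_generic (_hd : 1 ≤ d) (a : Fin n → Fin d → ℝ) (c p : Fin d → ℝ) :
    ∀ᵐ X ∂(volume : Measure (Fin d → ℝ)), Generic a c (X + p) :=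
  (measurePreserving_add_right volume p).quasiMeasurePreserving.ae (ae_generic_zero a c)

/-- If some `d` normals are independent, then the polyhedron has a vertex. -/
theorem exists_good_of_det {a : Fin n → Fin d → ℝ} (hd : 1 ≤ d) {B₀ : Idx n d}
    (h : (mat a B₀).det ≠ 0) : ∃ B, Good a B := by
  classical
  obtain ⟨T, hT⟩ : ∃ T : ℝ, T = 1 + ∑ k, n2 (nu a B₀ k) := ⟨_, rfl⟩
  have hS : 0 ≤ ∑ k, n2 (nu a B₀ k) := Finset.sum_nonneg fun k _ => n2_nonneg _
  have hT0 : 0 < T := by linarith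
  obtain ⟨q, hq⟩ : ∃ q : Fin d → ℝ, q = ∑ k, a (B₀ k) := ⟨_, rfl⟩
  -- the norm is controlled by the constraints in `B₀`
  have hnorm : ∀ x : Fin d → ℝ, n2 x ≤ T * ∑ k, |a (B₀ k) ⬝ᵥ x| := by
    intro x
    conv_lhs => rw [← sum_smul_nu h x]
    refine (n2_sum_le _ _).trans ?_
    rw [Finset.mul_sum]
    refine Finset.sum_le_sum fun k _ => ?_
    rw [n2_smul, mul_comm]
    refine mul_le_mul_of_nonneg_right ?_ (abs_nonneg _)
    have := Finset.single_le_sum (f := fun k => n2 (nu a B₀ k)) (fun k _ => n2_nonneg _)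
      (Finset.mem_univ k)
    linarith
  have hqx : ∀ x : Fin d → ℝ, (∀ i, a i ⬝ᵥ x ≤ 1) → q ⬝ᵥ x ≤ 2 * d - n2 x / T := by
    intro x hx
    have h1 : n2 x / T ≤ ∑ k, |a (B₀ k) ⬝ᵥ x| := by
      rw [div_le_iff₀ hT0, mul_comm]
      exact hnorm x
    have h2 : ∑ k, |a (B₀ k) ⬝ᵥ x| ≤ ∑ k : Fin d, (2 - a (B₀ k) ⬝ᵥ x) := by
      refine Finset.sum_le_sum fun k _ => ?_
      rw [abs_le]
      have := hx (B₀ k)
      constructor <;> linarith
    have h3 : ∑ k : Fin d, (2 - a (B₀ k) ⬝ᵥ x) = 2 * d - q ⬝ᵥ x := by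
      rw [Finset.sum_sub_distrib, hq, sum_dotProduct]
      simp [mul_comm]
    linarith
  -- a generic small perturbation
  obtain ⟨L, hL⟩ : ∃ L : ℝ, L = T * (d + 1) := ⟨_, rfl⟩
  have hL0 : 0 < L := by rw [hL]; positivity
  obtain ⟨X, hX1, hX2⟩ : ∃ X : Fin d → ℝ, ‖X‖ ≤ 1 ∧ Generic a 0 (X + L • q) := by
    have h1 := ae_generic hd a 0 (L • q)
    have h2 : (volume : Measure (Fin d → ℝ)) (Metric.ball 0 1) ≠ 0 :=
      (Metric.measure_ball_pos volume _ one_pos).ne'
    by_contra hcon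
    push Not at hcon
    apply h2
    refine measure_mono_null ?_ (ae_iff.1 h1)
    intro X hX
    exact hcon X (by
      rw [Metric.mem_ball, dist_zero_right] at hX
      exact hX.le)
  obtain ⟨B, hB, -⟩ := exists_good_cone (K := L * (2 * d)) hd (w := X + L • q) (fun x hx => by
    rw [add_dotProduct, smul_dotProduct, smul_eq_mul]
    have h1 : X ⬝ᵥ x ≤ d * n2 x := by
      refine (dot_le X x).trans (mul_le_mul_of_nonneg_right ?_ (n2_nonneg x))
      refine (n2_le X).trans ?_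
      have : (d : ℝ) * ‖X‖ ≤ d * 1 := by gcongr
      linarith
    have h2 := mul_le_mul_of_nonneg_left (hqx x hx) hL0.le
    have h3 : L * (2 * d - n2 x / T) = L * (2 * d) - (d + 1) * n2 x := by
      rw [hL]
      field_simp
    linarith) hX2
  exact ⟨B, hB⟩

end Pool.Agent.H.MP_0cad2f_co.helper29
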