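import Pool.Agent.H.MP_0cad2f_co.helper29.Cover
import Pool.Agent.H.MP_0cad2f_co.helper35.Det
import Pool.Agent.H.MP_0cad2f_co.helper73.Hits

/-! The pointwise estimate: the number of vertices is at most the number of vertices in a ball of the
edge graph, the number of irregular vertices and the average number of facets met. -/

set_option autoImplicit false

namespace Pool.Agent.H.MP_0cad2f_co.helper29

open MeasureTheory Matrix Finset
open scoped NNReal ENNReal
open Pool.Agent.H.MP_0cad2f_co.helper47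
open Pool.Agent.H.MP_0cad2f_co.helper35 (obj_dot_le inCone_end)
open Pool.Agent.H.MP_0cad2f_co.helper73 (edist_le_hits)

variable {n d : ℕ}

open Classical in
/-- Counting vertices with a property. -/
theorem card_pred {a : Fin n → Fin d → ℝ} (hs : Simple a) (p : Vert a → Prop) :
    ((({v : Vert a | p v}).encard : ℕ∞) : ℝ≥0∞) =
      ∑ I : Idx n d, if h : Good a I then (if p (toVert a ⟨I, h⟩) then 1 else 0) else 0 := by
  have h1 : {v : Vert a | p v} = toVert a '' {B | p (toVert a B)} := by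
    ext v
    constructor
    · intro hv
      obtain ⟨B, rfl⟩ := toVert_surjective a v
      exact ⟨B, hv, rfl⟩
    · rintro ⟨B, hB, rfl⟩
      exact hB
  rw [h1, (toVert_injective hs).encard_image, Set.encard_eq_coe_toFinset_card,
    ENat.toENNReal_coe]
  have h2 : ({B : {B : Idx n d // Good a B} | p (toVert a B)}).toFinset =
      Finset.univ.filter fun B : {B : Idx n d // Good a B} => p (toVert a B) := by
    ext B
    simp
  rw [h2, Finset.card_filter]
  push_cast
  have h3 : ∑ I : Idx n d, (if h : Good a I then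
      (if p (toVert a ⟨I, h⟩) then (1 : ℝ≥0∞) else 0) else 0) =
      ∑ I ∈ Finset.univ.filter (fun I : Idx n d => Good a I), (if h : Good a I then
        (if p (toVert a ⟨I, h⟩) then (1 : ℝ≥0∞) else 0) else 0) := by
    refine (Finset.sum_filter_of_ne fun I _ hI => ?_).symm
    by_contra hcon
    exact hI (dif_neg hcon)
  rw [h3, Finset.sum_subtype (Finset.univ.filter fun I : Idx n d => Good a I)
    (p := fun I => Good a I) (fun I => by simp)]
  refine Finset.sum_congr rfl fun B _ => ?_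
  rw [dif_pos B.2]

open Classical in
/-- (7f2) The number of vertices. -/
theorem card_vert {a : Fin n → Fin d → ℝ} (hs : Simple a) :
    (((Set.univ : Set (Vert a)).encard : ℕ∞) : ℝ≥0∞) =
      ∑ I : Idx n d, if Good a I then 1 else 0 := by
  have h1 : (Set.univ : Set (Vert a)) = {v | True} := rfl
  rw [h1, card_pred hs (fun _ => True)]
  refine Finset.sum_congr rfl fun I _ => ?_
  by_cases h : Good a I
  · rw [dif_pos h, if_pos h, if_pos trivial]
  · rw [dif_neg h, if_neg h]

/-- The event that the segment meets a facet is closed. -/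
theorem isClosed_hit (a : Fin n → Fin d → ℝ) (B : Idx n d) (k : Fin d) (c : Fin d → ℝ) (M : ℝ) :
    IsClosed {X : Fin d → ℝ | Hit a B k c M X} := by
  let S : Set ((Fin d → ℝ) × Set.Icc (0 : ℝ) M) :=
    {p | (∀ l, 0 ≤ nu a B l ⬝ᵥ (p.1 + (p.2 : ℝ) • c)) ∧ nu a B k ⬝ᵥ (p.1 + (p.2 : ℝ) • c) = 0}
  have hc : ∀ l, Continuous fun p : (Fin d → ℝ) × Set.Icc (0 : ℝ) M =>
      nu a B l ⬝ᵥ (p.1 + (p.2 : ℝ) • c) := by
    intro l
    unfold dotProduct
    refine continuous_finsetSum _ fun j _ => ?_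
    simp only [Pi.add_apply, Pi.smul_apply, smul_eq_mul]
    fun_prop
  have hS : IsClosed S := by
    refine IsClosed.and ?_ ?_
    · simp only [Set.ofPred_forall]
      exact isClosed_iInter fun l => isClosed_le continuous_const (hc l)
    · exact isClosed_eq (hc k) continuous_const
  have h1 : {X : Fin d → ℝ | Hit a B k c M X} = Prod.fst '' S := by
    ext X
    constructor
    · rintro ⟨μ, hμ, h2, h3⟩
      exact ⟨(X, ⟨μ, hμ⟩), ⟨h2, h3⟩, rfl⟩
    · rintro ⟨⟨X', μ⟩, ⟨h2, h3⟩, rfl⟩
      exact ⟨μ, μ.2, h2, h3⟩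
  rw [h1]
  exact isClosedMap_fst_of_compactSpace S hS

theorem measurable_hits (a : Fin n → Fin d → ℝ) (c p : Fin d → ℝ) (M : ℝ) :
    Measurable fun X : Fin d → ℝ => (hits a c M (X + p) : ℝ≥0∞) := by
  classical
  unfold hits
  push_cast
  refine Finset.measurable_sum _ fun B _ => Finset.measurable_sum _ fun k _ => ?_
  by_cases h : Good a B
  · have h1 : MeasurableSet {X : Fin d → ℝ | Hit a B k c M (X + p)} :=
      ((isClosed_hit a B k c M).preimage (continuous_add_const p)).measurableSet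
    have h2 : (fun X : Fin d → ℝ => (if Good a B ∧ Hit a B k c M (X + p) then (1 : ℝ≥0∞) else 0)) =
        {X : Fin d → ℝ | Hit a B k c M (X + p)}.indicator fun _ => 1 := by
      ext X
      by_cases h3 : Hit a B k c M (X + p)
      · rw [if_pos ⟨h, h3⟩, Set.indicator_of_mem (show X ∈ {X | Hit a B k c M (X + p)} from h3)]
      · rw [if_neg fun h4 => h3 h4.2,
          Set.indicator_of_notMem (show X ∉ {X | Hit a B k c M (X + p)} from h3)]
    rw [h2]
    exact measurable_const.indicator h1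
  · have h2 : (fun X : Fin d → ℝ => (if Good a B ∧ Hit a B k c M (X + p) then (1 : ℝ≥0∞) else 0)) =
        fun _ => 0 := by
      ext X
      rw [if_neg fun h4 => h h4.1]
    rw [h2]
    exact measurable_const

theorem cube_eq (R : ℝ) : {X : Fin d → ℝ | ‖X‖ ≤ R} = Metric.closedBall 0 R := by
  ext X
  rw [Metric.mem_closedBall, dist_zero_right]
  exact Iff.rfl

theorem cubeVol_ne_zero {R : ℝ} (hR : 0 < R) : cubeVol d R ≠ 0 := by
  unfold cubeVol
  rw [cube_eq]
  exact (Metric.measure_closedBall_pos volume _ hR).ne'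

theorem cubeVol_ne_top (R : ℝ) : cubeVol d R ≠ ⊤ := by
  unfold cubeVol
  rw [cube_eq]
  exact measure_closedBall_lt_top.ne

open Classical in
/-- (7f) The pointwise estimate, given the bound for the average number of facets met. -/
theorem card_le_of (c : Fin n → Fin d → ℝ) (G : Finset (Fin n)) {a : Fin n → Fin d → ℝ}
    (hs : Simple a) {A Rg ρ₁ T L R M D : ℝ} (hd : 1 ≤ d)
    (hA : ∀ i, n2 (c i) + Rg ≤ A) (hT : 0 < T) (hR : 0 < R)
    (hL : T * (d * R + 1) ≤ L) (hM0 : 0 < M)
    (hM : T * (d * R + L * G.card * A) ≤ M) (hD : 0 < D)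
    (hhits : (∀ i, n2 (a i) ≤ A) → ∀ I : Idx n d,
      ∫⁻ X in {X : Fin d → ℝ | ‖X‖ ≤ R}, (hits a (cI a I) M (X + L • aG a G) : ℝ≥0∞) ≤
        fluxSum a G I A L M R) :
    (((Set.univ : Set (Vert a)).encard : ℕ∞) : ℝ≥0∞) ≤ ballCount a D +
      ∑ I : Idx n d, ((if Good a I ∧ ¬ Reg c a G I Rg ρ₁ T then 1 else 0) +
        (if Reg c a G I Rg ρ₁ T then
          fluxSum a G I A L M R / (ENNReal.ofReal D * cubeVol d R) else 0)) := by
  rw [card_vert hs]
  by_cases hreg : ∃ I, Reg c a G I Rg ρ₁ T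
  swap
  · push Not at hreg
    refine le_trans ?_ le_add_self
    refine Finset.sum_le_sum fun I _ => ?_
    by_cases h : Good a I
    · rw [if_pos h, if_pos ⟨h, hreg I⟩]
      exact le_self_add
    · rw [if_neg h]
      exact bot_le
  obtain ⟨I₀, h₀⟩ := hreg
  have ha : ∀ i, n2 (a i) ≤ A := fun i => by
    have h1 := n2_add_le (a i - c i) (c i)
    rw [sub_add_cancel] at h1
    linarith [h₀.near i, hA i]
  have hG := h₀.spans
  have hL0 : 0 ≤ L := le_trans (by positivity) hL
  have hDne : ENNReal.ofReal D ≠ 0 := (ENNReal.ofReal_pos.2 hD).ne'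
  have hv0 : cubeVol d R ≠ 0 := cubeVol_ne_zero hR
  have hvt : cubeVol d R ≠ ⊤ := cubeVol_ne_top R
  obtain ⟨q, hq⟩ : ∃ q : Fin d → ℝ, q = L • aG a G := ⟨_, rfl⟩
  have hCm : MeasurableSet {X : Fin d → ℝ | ‖X‖ ≤ R} := by
    rw [cube_eq]
    exact Metric.isClosed_closedBall.measurableSet
  -- for almost every objective
  have key : ∀ᵐ X ∂(volume.restrict {X : Fin d → ℝ | ‖X‖ ≤ R}),
      (∑ I : Idx n d, if Good a I then (1 : ℝ≥0∞) else 0) ≤ ballCount a D +
        ∑ I : Idx n d, ((if Good a I ∧ ¬ Reg c a G I Rg ρ₁ T then 1 else 0) +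
          (if Reg c a G I Rg ρ₁ T then
            (hits a (cI a I) M (X + q) : ℝ≥0∞) * (ENNReal.ofReal D)⁻¹ else 0)) := by
    have hgen : ∀ᵐ X ∂(volume : Measure (Fin d → ℝ)),
        ∀ I : Idx n d, Generic a (cI a I) (X + q) :=
      ae_all_iff.2 fun I => ae_generic hd a (cI a I) q
    filter_upwards [ae_restrict_of_ae hgen, ae_restrict_mem hCm] with X hX hXR
    have hb : ∀ (I : Idx n d), ∀ μ ∈ Set.Icc (0 : ℝ) M, ∀ x : Fin d → ℝ,
        (∀ i, a i ⬝ᵥ x ≤ 1) →
        (X + q + μ • cI a I) ⬝ᵥ x ≤ (2 * L * G.card + M * d) - n2 x := by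
      intro I μ hμ x hx
      have h1 := obj_dot_le (I := I) (μ := μ) hT hR.le hL hG hXR hμ.1 hx
      have h2 : X + obj a G I L μ = X + q + μ • cI a I := by
        rw [hq]
        unfold obj
        abel
      rw [h2] at h1
      have h3 : μ * (d : ℝ) ≤ M * d := mul_le_mul_of_nonneg_right hμ.2 (Nat.cast_nonneg d)
      linarith
    obtain ⟨B₀, hB₀, hc₀⟩ := exists_good_cone hd (K := 2 * L * G.card + M * d) (fun x hx => by
      have h1 := hb I₀ 0 ⟨le_rfl, hM0.le⟩ x hx
      rwa [zero_smul, add_zero] at h1) (hX I₀)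
    obtain ⟨P, hP⟩ : ∃ P : Vert a → Prop, P = fun v =>
        ((graph a).edist (toVert a ⟨B₀, hB₀⟩) v : ℝ≥0∞) ≤ ENNReal.ofReal D := ⟨_, rfl⟩
    have hball : (∑ I : Idx n d, if h : Good a I then
        (if P (toVert a ⟨I, h⟩) then (1 : ℝ≥0∞) else 0) else 0) ≤ ballCount a D := by
      rw [← card_pred hs P, hP]
      exact le_iSup (fun v₀ : Vert a =>
        ((({v : Vert a | ((graph a).edist v₀ v : ℝ≥0∞) ≤ ENNReal.ofReal D}).encard : ℕ∞) :
          ℝ≥0∞)) (toVert a ⟨B₀, hB₀⟩)
    refine le_trans ?_ (add_le_add hball le_rfl)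
    rw [← Finset.sum_add_distrib]
    refine Finset.sum_le_sum fun I _ => ?_
    by_cases hI : Good a I
    · rw [if_pos hI, dif_pos hI]
      by_cases hr : Reg c a G I Rg ρ₁ T
      · rw [if_pos hr, if_neg (show ¬ (Good a I ∧ ¬ Reg c a G I Rg ρ₁ T) from fun h => h.2 hr),
          zero_add]
        by_cases hdist : P (toVert a ⟨I, hI⟩)
        · rw [if_pos hdist]
          exact le_self_add
        · rw [if_neg hdist, zero_add, ← div_eq_mul_inv,
            ENNReal.le_div_iff_mul_le (Or.inl hDne) (Or.inl ENNReal.ofReal_ne_top), one_mul]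
          have h1 := edist_le_hits hd hs hM0 (hb I) (hX I) ⟨B₀, hB₀⟩ ⟨I, hI⟩ hc₀ (by
            rw [hq]
            exact inCone_end hL0 hR.le hI.1 ha hr.nu_le hM hXR)
          have h2 : ((graph a).edist (toVert a ⟨B₀, hB₀⟩) (toVert a ⟨I, hI⟩) : ℝ≥0∞) ≤
              ((hits a (cI a I) M (X + q) : ℕ∞) : ℝ≥0∞) := ENat.toENNReal_le.2 h1
          rw [ENat.toENNReal_coe] at h2
          rw [hP] at hdist
          exact (not_le.1 hdist).le.trans h2
      · rw [if_neg hr, if_pos (show Good a I ∧ ¬ Reg c a G I Rg ρ₁ T from ⟨hI, hr⟩), add_zero]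
        exact le_add_self
    · rw [if_neg hI]
      exact bot_le
  -- average
  have hint := lintegral_mono_ae key
  rw [lintegral_const, Measure.restrict_apply_univ] at hint
  have hmeas : ∀ I : Idx n d, Measurable fun X : Fin d → ℝ =>
      ((if Good a I ∧ ¬ Reg c a G I Rg ρ₁ T then 1 else 0) +
          (if Reg c a G I Rg ρ₁ T then
            (hits a (cI a I) M (X + q) : ℝ≥0∞) * (ENNReal.ofReal D)⁻¹ else 0) : ℝ≥0∞) := by
    intro I
    refine measurable_const.add ?_
    by_cases hr : Reg c a G I Rg ρ₁ T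
    · simp only [if_pos hr]
      exact (measurable_hits a (cI a I) q M).mul_const _
    · simp only [if_neg hr]
      exact measurable_const
  rw [lintegral_add_left measurable_const, lintegral_const, Measure.restrict_apply_univ,
    lintegral_finsetSum _ fun I _ => hmeas I] at hint
  have hI : ∀ I : Idx n d, ∫⁻ X in {X : Fin d → ℝ | ‖X‖ ≤ R},
      ((if Good a I ∧ ¬ Reg c a G I Rg ρ₁ T then 1 else 0) +
          (if Reg c a G I Rg ρ₁ T then
            (hits a (cI a I) M (X + q) : ℝ≥0∞) * (ENNReal.ofReal D)⁻¹ else 0) : ℝ≥0∞) ≤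
      ((if Good a I ∧ ¬ Reg c a G I Rg ρ₁ T then 1 else 0) +
        (if Reg c a G I Rg ρ₁ T then
          fluxSum a G I A L M R / (ENNReal.ofReal D * cubeVol d R) else 0)) * cubeVol d R := by
    intro I
    rw [lintegral_add_left measurable_const, lintegral_const, Measure.restrict_apply_univ,
      add_mul]
    refine add_le_add le_rfl ?_
    by_cases hr : Reg c a G I Rg ρ₁ T
    · simp only [if_pos hr]
      rw [lintegral_mul_const _ (measurable_hits a (cI a I) q M), hq, div_eq_mul_inv,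
        ENNReal.mul_inv (Or.inl hDne) (Or.inl ENNReal.ofReal_ne_top), mul_assoc, mul_assoc,
        ENNReal.inv_mul_cancel hv0 hvt, mul_one]
      exact mul_le_mul_left (hhits ha I) _
    · simp only [if_neg hr]
      rw [lintegral_const, zero_mul, zero_mul]
  have hfin := hint.trans (add_le_add le_rfl (Finset.sum_le_sum fun I _ => hI I))
  rw [← Finset.sum_mul] at hfin
  change _ * cubeVol d R ≤ _ * cubeVol d R + _ at hfin
  rw [← add_mul] at hfin
  exact (ENNReal.mul_le_mul_iff_left hv0 hvt).1 hfin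

end Pool.Agent.H.MP_0cad2f_co.helper29
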