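import Pool.Agent.H.MP_0cad2f_co.helper29.Point

/-! Normal cones do not overlap. -/

set_option autoImplicit false

namespace Pool.Agent.H.MP_0cad2f_co.helper29

open MeasureTheory Matrix Finset
open scoped NNReal ENNReal
open Pool.Agent.H.MP_0cad2f_co.helper47

variable {n d : ℕ}

open Classical in
/-- (7d1) Normal cones do not overlap. -/
theorem sum_coneVol_le (hd : 1 ≤ d) {a : Fin n → Fin d → ℝ} (hs : Simple a)
    (p : Fin d → ℝ) (R : ℝ) :
    ∑ B : Idx n d, (if Good a B then coneVol a B p R else 0) ≤ cubeVol d R := by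
  let E : Idx n d → Set (Fin d → ℝ) := fun B => {X | ‖X‖ ≤ R ∧ InCone a B (X + p)}
  have hE : ∀ B, MeasurableSet (E B) := by
    intro B
    have h1 : E B = {X | ‖X‖ ≤ R} ∩ ⋂ k, {X | 0 ≤ nu a B k ⬝ᵥ (X + p)} := by
      ext X
      simp [E, InCone]
    rw [h1]
    refine MeasurableSet.inter ?_ (MeasurableSet.iInter fun k => ?_)
    · rw [cube_eq]
      exact Metric.isClosed_closedBall.measurableSet
    · refine (isClosed_le continuous_const ?_).measurableSet
      unfold dotProduct
      simp only [Pi.add_apply]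
      fun_prop
  rw [← Finset.sum_filter]
  have h2 : ∑ B ∈ Finset.univ.filter (fun B : Idx n d => Good a B), coneVol a B p R =
      volume (⋃ B ∈ Finset.univ.filter (fun B : Idx n d => Good a B), E B) := by
    refine (measure_biUnion_finset₀ ?_ fun B _ => (hE B).nullMeasurableSet).symm
    intro B hB B' hB' hne
    have hB1 : Good a B := (Finset.mem_filter.1 (Finset.mem_coe.1 hB)).2
    have hB1' : Good a B' := (Finset.mem_filter.1 (Finset.mem_coe.1 hB')).2
    show volume (E B ∩ E B') = 0
    refine measure_mono_null ?_ (ae_iff.1 (ae_generic hd a 0 p))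
    rintro X ⟨hX, hX'⟩ hgen
    exact hne (unique_cone hs hgen hB1 hB1' hX.2 hX'.2)
  rw [h2]
  unfold cubeVol
  refine measure_mono ?_
  intro X hX
  obtain ⟨B, -, hXB⟩ := Set.mem_iUnion₂.1 hX
  exact hXB.1

end Pool.Agent.H.MP_0cad2f_co.helper29
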